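import Pool.Agent.H381R4.CM.Stubs

set_option autoImplicit false
open MeasureTheory Matrix Filter Topology
open scoped ENNReal BigOperators Pointwise

namespace Pool.Agent.H410CM

open Pool.Agent.H381CM

lemma eval_bump (j : ℕ) (q : ℝ) : (bump j).eval q = 1 - (1 - q ^ j) ^ ⌈Real.exp j⌉₊ := by
  simp [bump]

lemma XX_bump (j : ℕ) (t : ℝ) : XX (bump j) t = 1 - (1 - Real.exp (-(j * t))) ^ ⌈Real.exp j⌉₊ := by
  unfold XX
  rw [eval_bump, ← Real.exp_nat_mul]
  congr 3
  ring_nf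

lemma adm_bump (j : ℕ) (hj : 1 ≤ j) : Adm (bump j) := by
  refine ⟨?_, ?_⟩
  · rw [Polynomial.coeff_zero_eq_eval_zero, eval_bump, zero_pow (by omega)]
    simp
  · intro q h0 h1
    have hq0 : 0 ≤ q ^ j := pow_nonneg h0 j
    have hq1 : q ^ j ≤ 1 := pow_le_one₀ h0 h1
    constructor
    · rw [eval_bump]
      have : (1 - q ^ j) ^ ⌈Real.exp j⌉₊ ≤ 1 := pow_le_one₀ (by linarith) (by linarith)
      linarith
    · have hd : (bump j).derivative.eval q =
          (⌈Real.exp j⌉₊ : ℝ) * (1 - q ^ j) ^ (⌈Real.exp j⌉₊ - 1) * (j * q ^ (j - 1)) := by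
        simp [bump, Polynomial.derivative_pow]
      rw [hd]
      have h2 : 0 ≤ 1 - q ^ j := by linarith
      positivity

lemma e_pos (j : ℕ) (t : ℝ) (ht : 0 ≤ t) : 0 < Real.exp (-(j * t)) ∧ Real.exp (-(j * t)) ≤ 1 := by
  refine ⟨Real.exp_pos _, ?_⟩
  rw [Real.exp_le_one_iff]
  have : (0 : ℝ) ≤ j * t := by positivity
  linarith

lemma XX_nonneg (j : ℕ) (t : ℝ) (ht : 0 ≤ t) : 0 ≤ XX (bump j) t := by
  rw [XX_bump]
  obtain ⟨h1, h2⟩ := e_pos j t ht
  have : (1 - Real.exp (-(j * t))) ^ ⌈Real.exp j⌉₊ ≤ 1 := pow_le_one₀ (by linarith) (by linarith)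
  linarith

lemma XX_le_one (j : ℕ) (t : ℝ) (ht : 0 ≤ t) : XX (bump j) t ≤ 1 := by
  rw [XX_bump]
  obtain ⟨h1, h2⟩ := e_pos j t ht
  have : 0 ≤ (1 - Real.exp (-(j * t))) ^ ⌈Real.exp j⌉₊ := pow_nonneg (by linarith) _
  linarith

lemma XX_le (j : ℕ) (t : ℝ) (ht : 0 ≤ t) : XX (bump j) t ≤ 2 * Real.exp (-(j * (t - 1))) := by
  rw [XX_bump]
  obtain ⟨h1, h2⟩ := e_pos j t ht
  have hb := one_add_mul_le_pow (a := -Real.exp (-(j * t))) (by linarith) ⌈Real.exp j⌉₊
  have hM : (⌈Real.exp j⌉₊ : ℝ) ≤ 2 * Real.exp j := by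
    have h3 : (⌈Real.exp j⌉₊ : ℝ) < Real.exp j + 1 := Nat.ceil_lt_add_one (Real.exp_pos _).le
    have h4 : (1 : ℝ) ≤ Real.exp j := Real.one_le_exp (Nat.cast_nonneg _)
    linarith
  have h5 : (⌈Real.exp j⌉₊ : ℝ) * Real.exp (-(j * t)) ≤ 2 * Real.exp (-(j * (t - 1))) := by
    calc (⌈Real.exp j⌉₊ : ℝ) * Real.exp (-(j * t)) ≤ (2 * Real.exp j) * Real.exp (-(j * t)) := by
          gcongr
      _ = 2 * (Real.exp j * Real.exp (-(j * t))) := by ring
      _ = 2 * Real.exp (-(j * (t - 1))) := by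
          rw [← Real.exp_add]; congr 2; ring
  have h6 : (1 + -Real.exp (-(j * t))) = 1 - Real.exp (-(j * t)) := by ring
  rw [h6] at hb
  linarith

theorem T_BMP : S_BMP := by
  refine ⟨adm_bump, ?_, ?_, ?_⟩
  · intro j hj t ht
    refine ⟨XX_nonneg j t ht, XX_le_one j t ht, ?_⟩
    rcases le_or_gt 1 t with h | h
    · refine (XX_le j t ht).trans ?_
      have h1 : 2 * Real.exp 1 * Real.exp (-t) = 2 * Real.exp (-(t - 1)) := by
        rw [mul_assoc, ← Real.exp_add]; congr 2; ring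
      rw [h1]
      have hj' : (1 : ℝ) ≤ j := by exact_mod_cast hj
      have h2 : -(j * (t - 1)) ≤ -(t - 1) := by nlinarith
      have h3 := Real.exp_le_exp.2 h2
      linarith
    · refine (XX_le_one j t ht).trans ?_
      have h1 : Real.exp 1 * Real.exp (-t) = Real.exp (1 - t) := by
        rw [← Real.exp_add]; congr 1
      have h2 : (1 : ℝ) ≤ Real.exp (1 - t) := Real.one_le_exp (by linarith)
      have h3 : 2 * Real.exp 1 * Real.exp (-t) = 2 * Real.exp (1 - t) := by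
        rw [mul_assoc, h1]
      rw [h3]; linarith
  · intro t ht h1
    have hlow : ∀ j : ℕ, 1 - Real.exp (-Real.exp (j * (1 - t))) ≤ XX (bump j) t := by
      intro j
      rw [XX_bump]
      obtain ⟨h2, h3⟩ := e_pos j t ht
      have h4 : 1 - Real.exp (-(j * t)) ≤ Real.exp (-Real.exp (-(j * t))) := by
        have := Real.add_one_le_exp (-Real.exp (-(j * t)))
        linarith
      have h5 : (1 - Real.exp (-(j * t))) ^ ⌈Real.exp j⌉₊ ≤
          Real.exp (-Real.exp (-(j * t))) ^ ⌈Real.exp j⌉₊ :=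
        pow_le_pow_left₀ (by linarith) h4 _
      rw [← Real.exp_nat_mul] at h5
      have h6 : (⌈Real.exp j⌉₊ : ℝ) * -Real.exp (-(j * t)) ≤ -Real.exp (j * (1 - t)) := by
        have h7 : Real.exp j ≤ (⌈Real.exp j⌉₊ : ℝ) := Nat.le_ceil _
        have h8 : Real.exp (j * (1 - t)) = Real.exp j * Real.exp (-(j * t)) := by
          rw [← Real.exp_add]; congr 1; ring
        rw [h8]
        nlinarith
      have h9 := Real.exp_le_exp.2 h6
      linarith
    have hlim : Tendsto (fun j : ℕ => 1 - Real.exp (-Real.exp (j * (1 - t)))) atTop (𝓝 (1 - 0)) := by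
      apply Tendsto.const_sub
      apply Real.tendsto_exp_neg_atTop_nhds_zero.comp
      apply Real.tendsto_exp_atTop.comp
      exact Tendsto.atTop_mul_const (by linarith) tendsto_natCast_atTop_atTop
    rw [sub_zero] at hlim
    exact tendsto_of_tendsto_of_tendsto_of_le_of_le hlim tendsto_const_nhds hlow
      (fun j => XX_le_one j t ht)
  · intro t h1
    have ht : 0 ≤ t := by linarith
    have hlim : Tendsto (fun j : ℕ => 2 * Real.exp (-(j * (t - 1)))) atTop (𝓝 (2 * 0)) := by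
      apply Tendsto.const_mul
      apply Real.tendsto_exp_neg_atTop_nhds_zero.comp
      exact Tendsto.atTop_mul_const (by linarith) tendsto_natCast_atTop_atTop
    rw [mul_zero] at hlim
    exact tendsto_of_tendsto_of_tendsto_of_le_of_le tendsto_const_nhds hlim
      (fun j => XX_nonneg j t ht) (fun j => XX_le j t ht)

end Pool.Agent.H410CM
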